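import Pool.Agent.N410.DC.Gen
import Pool.Agent.R769.MN.Mat
import Pool.Agent.N399.DM.Main

/-!
# Matching number at most eight and dominating sets, after the contraction of a chain
-/

set_option autoImplicit false
set_option linter.unusedSectionVars false
set_option synthInstance.maxHeartbeats 400000
set_option synthInstance.maxSize 2048

namespace Pool.Agent.V5helper2.FF

open Finset Pool.Agent.TH362.TF Pool.Agent.R890.FF Pool.Agent.N410.DC

section maps

variable {V W E : Type} [DecidableEq E]

/-- the vertices after the contraction of the edges in `F` -/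
def Con (s t : E → V) (F : Finset E) : Type := Quot (fun x y : V => ∃ e ∈ F, s e = x ∧ t e = y)

/-- the contraction map -/
def con (s t : E → V) (F : Finset E) (v : V) : Con s t F := Quot.mk _ v

theorem con_eq {s t : E → V} {F : Finset E} {e : E} (he : e ∈ F) :
    con s t F (s e) = con s t F (t e) := Quot.sound ⟨e, he, rfl, rfl⟩

/-- the induced map of the contractions -/
def conMap {s t : E → V} {F : Finset E} (ρ : V → W) : Con s t F → Con (ρ ∘ s) (ρ ∘ t) F :=
  Quot.lift (fun v => con (ρ ∘ s) (ρ ∘ t) F (ρ v)) (by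
    rintro x y ⟨e, he, rfl, rfl⟩
    exact con_eq he)

theorem conMap_con {s t : E → V} {F : Finset E} (ρ : V → W) (v : V) :
    conMap ρ (con s t F v) = con (ρ ∘ s) (ρ ∘ t) F (ρ v) := rfl

/-- nothing is identified -/
def conBack (s t : E → V) (F : Finset E) (h : ∀ e ∈ F, s e = t e) : Con s t F → V :=
  Quot.lift id (by
    rintro x y ⟨e, he, rfl, rfl⟩
    exact h e he)

theorem conBack_con {s t : E → V} {F : Finset E} (h : ∀ e ∈ F, s e = t e) (v : V) :
    conBack s t F h (con s t F v) = v := rfl

end maps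

/-! ## matchings -/

section mat

variable {V W E : Type} [DecidableEq E]

/-- `M` is a matching: the edges are not loops and no two of them have a common end -/
def Mat (s t : E → V) (M : Finset E) : Prop :=
  (∀ e ∈ M, s e ≠ t e) ∧ ∀ e ∈ M, ∀ e' ∈ M, e ≠ e' →
    s e ≠ s e' ∧ s e ≠ t e' ∧ t e ≠ s e' ∧ t e ≠ t e'

theorem Mat.pull {s t : E → V} (π : V → W) {M : Finset E}
    (h : Mat (fun e => π (s e)) (fun e => π (t e)) M) : Mat s t M :=
  ⟨fun e he h' => h.1 e he (congrArg π h'), fun e he e' he' hne =>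
    have := h.2 e he e' he' hne
    ⟨fun h' => this.1 (congrArg π h'), fun h' => this.2.1 (congrArg π h'),
      fun h' => this.2.2.1 (congrArg π h'), fun h' => this.2.2.2 (congrArg π h')⟩⟩

/-- after the contraction of `F` every matching has at most eight edges -/
def KM (s t : E → V) (F : Finset E) : Prop :=
  ∀ M : Finset E, Mat (fun e => con s t F (s e)) (fun e => con s t F (t e)) M → M.card ≤ 8

end mat

variable {V E : Type} [Fintype V] [DecidableEq V] [Fintype E] [DecidableEq E]

theorem inh_KM : Inh (V := V) (E := E) KM where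
  map := by
    intro s t F ρ h M hM
    exact h M (Mat.pull (conMap ρ) hM)
  loops := by
    intro s t F h hl M hM
    have h1 : Mat s t M := Mat.pull (con s t ∅) hM
    refine h M ?_
    have h2 : Mat (fun e => conBack s t F hl (con s t F (s e)))
      (fun e => conBack s t F hl (con s t F (t e))) M := h1
    exact Mat.pull _ h2
  flow := by
    intro s t h h1
    refine R769.MN.match8 s t univ h1 fun M _ hM => h M ?_
    have h2 : Mat (fun e => conBack s t ∅ (fun e he => absurd he (notMem_empty e))
        (con s t ∅ (s e))) (fun e => conBack s t ∅ (fun e he => absurd he (notMem_empty e))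
        (con s t ∅ (t e))) M := hM
    exact Mat.pull _ h2

/-! ## dominating sets -/

section dom

variable {V W E : Type} [DecidableEq E]

/-- the edge `e` joins `x` and `y` -/
def Jn (s t : E → V) (e : E) (x y : V) : Prop := (s e = x ∧ t e = y) ∨ (s e = y ∧ t e = x)

/-- close vertices: joined by an edge or by two different paths with two edges -/
def Cls (s t : E → V) (x y : V) : Prop :=
  (∃ e, Jn s t e x y) ∨ ∃ (e f e' f' : E) (a b : V), (e ≠ e' ∨ f ≠ f') ∧ Jn s t e x a ∧
    Jn s t f a y ∧ Jn s t e' x b ∧ Jn s t f' b y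

/-- every vertex outside of `D` which is an end of an edge (not a loop) is close to a vertex of `D`,
and of any three vertices of `D` which are different from each other and from the vertex `d` of
`D` one is close to `d` -/
def Dm (s t : E → V) (D : Set V) : Prop :=
  (∀ x, x ∉ D → (∃ e, s e ≠ t e ∧ (s e = x ∨ t e = x)) → ∃ d ∈ D, Cls s t x d) ∧
    ∀ d ∈ D, ∀ c : Fin 3 → V, Function.Injective c → (∀ i, c i ∈ D ∧ c i ≠ d) →
      ∃ i, Cls s t d (c i)

theorem Jn.push {s t : E → V} {e : E} {x y : V} (h : Jn s t e x y) (π : V → W) :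
    Jn (fun e => π (s e)) (fun e => π (t e)) e (π x) (π y) := by
  rcases h with ⟨h1, h2⟩ | ⟨h1, h2⟩
  · exact Or.inl ⟨congrArg π h1, congrArg π h2⟩
  · exact Or.inr ⟨congrArg π h1, congrArg π h2⟩

theorem Cls.push {s t : E → V} {x y : V} (h : Cls s t x y) (π : V → W) :
    Cls (fun e => π (s e)) (fun e => π (t e)) (π x) (π y) := by
  rcases h with ⟨e, h⟩ | ⟨e, f, e', f', a, b, h0, h1, h2, h3, h4⟩
  · exact Or.inl ⟨e, h.push π⟩
  · exact Or.inr ⟨e, f, e', f', π a, π b, h0, h1.push π, h2.push π, h3.push π, h4.push π⟩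

/-- the condition is inherited by quotients -/
theorem Dm.push {s t : E → V} {D : Set V} (h : Dm s t D) (π : V → W) :
    Dm (fun e => π (s e)) (fun e => π (t e)) (π '' D) := by
  obtain ⟨h1, h2⟩ := h
  refine ⟨?_, ?_⟩
  · rintro x hx ⟨e, he, hex⟩
    have key : ∀ v, π v = x → (s e = v ∨ t e = v) → ∃ d ∈ π '' D,
        Cls (fun e => π (s e)) (fun e => π (t e)) x d := by
      intro v hv hev
      obtain ⟨d, hd, hc⟩ := h1 v (fun h => hx ⟨v, h, hv⟩) ⟨e, fun h => he (congrArg π h), hev⟩
      exact ⟨π d, ⟨d, hd, rfl⟩, hv ▸ hc.push π⟩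
    rcases hex with h | h
    · exact key _ h (Or.inl rfl)
    · exact key _ h (Or.inr rfl)
  · rintro _ ⟨d, hd, rfl⟩ c hc hcD
    choose g hg1 hg2 using fun i => (hcD i).1
    obtain ⟨i, hi⟩ := h2 d hd g (fun i j hij => hc (by rw [← hg2 i, ← hg2 j, hij])) (fun i =>
      ⟨hg1 i, fun h => (hcD i).2 (by rw [← hg2 i, h])⟩)
    refine ⟨i, ?_⟩
    have := hi.push π
    rwa [hg2 i] at this

/-- after the contraction of `F` there is a dominating set as above -/
def KD (s t : E → V) (F : Finset E) : Prop :=
  ∃ D : Set (Con s t F), Dm (fun e => con s t F (s e)) (fun e => con s t F (t e)) D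

end dom

theorem dom_of {s t : E → V} {D : Set V} (h : Dm s t D) : N399.DM.Cl s t := by
  classical
  refine ⟨univ.filter (fun v => v ∈ D), ?_, ?_⟩
  · intro x hx he
    obtain ⟨d, hd, hc⟩ := h.1 x (fun h' => hx (mem_filter.2 ⟨mem_univ _, h'⟩)) he
    exact ⟨d, mem_filter.2 ⟨mem_univ _, hd⟩, hc⟩
  · intro d hd W hW hWc
    by_contra hlt
    obtain ⟨U, hU, hU3⟩ := exists_subset_card_eq (show 3 ≤ W.card by omega)
    set φ := (Finset.equivFinOfCardEq hU3).symm with hφ
    obtain ⟨i, hi⟩ := h.2 d (mem_filter.1 hd).2 (fun i => (φ i : V))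
      (fun i j hij => φ.injective (Subtype.ext hij))
      (fun i => ⟨(mem_filter.1 (hW (hU (φ i).2))).2, (hWc _ (hU (φ i).2)).1⟩)
    exact (hWc _ (hU (φ i).2)).2 hi

theorem inh_KD : Inh (V := V) (E := E) KD where
  map := by
    intro s t F ρ h
    obtain ⟨D, hD⟩ := h
    exact ⟨_, hD.push (conMap ρ)⟩
  loops := by
    intro s t F h hl
    obtain ⟨D, hD⟩ := h
    have h1 := hD.push (conBack s t F hl)
    exact ⟨_, h1.push (con s t ∅)⟩
  flow := by
    intro s t h h1
    obtain ⟨D, hD⟩ := h
    have h2 := hD.push (conBack s t ∅ (fun e he => absurd he (notMem_empty e)))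
    exact (dom_of h2).flow h1

end Pool.Agent.V5helper2.FF
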