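import Pool.Agent.R129.Four.Bag
import Pool.Agent.N399.TB.Adh
import Pool.Agent.N399.TB.Blk

/-!
# Four-flows and tree decompositions with crowded bags and crowded adhesion sets
-/

set_option autoImplicit false
set_option linter.unusedSectionVars false

namespace Pool.Agent.V5helper2.FF

open Finset Pool.Agent.TH499.TF Pool.Agent.R129.Four

variable {V E : Type} [Fintype V] [DecidableEq V] [Fintype E] [DecidableEq E]

/-- every subset of `B` without short circuits has at most `k` elements -/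
def SpK (src dst : E → V) (k : ℕ) (B : Finset V) : Prop :=
  ∀ S ⊆ B, ¬ Sh src dst S → S.card ≤ k

theorem SpK.phi {src dst : E → V} {k : ℕ} {B : Finset V} (h : SpK src dst k B) (u v : V) :
    SpK (phi u v ∘ src) (phi u v ∘ dst) k (B.image (phi u v)) := by
  intro S hS hG
  have hex : ∀ x, ∃ y, x ∈ S → y ∈ B ∧ Pool.Agent.TH499.TF.phi u v y = x := by
    intro x
    by_cases hx : x ∈ S
    · obtain ⟨y, hy, hyx⟩ := mem_image.1 (hS hx)
      exact ⟨y, fun _ => ⟨hy, hyx⟩⟩
    · exact ⟨x, fun h => absurd h hx⟩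
  choose σ hσ using hex
  have hinj : Set.InjOn σ S := by
    intro a ha b hb hab
    rw [← (hσ a ha).2, ← (hσ b hb).2, hab]
  have h1 := h (S.image σ) (by
    intro y hy
    obtain ⟨x, hx, rfl⟩ := mem_image.1 hy
    exact (hσ x hx).1) (by
    rintro ⟨k, hk, w, ed, hw, hed, hA⟩
    have hmem : ∀ i, ∃ x ∈ S, σ x = w i := fun i => mem_image.1 (hA i).1
    choose x hx hxw using hmem
    refine hG ⟨k, hk, x, ed, ?_, hed, fun i => ⟨hx i, ?_⟩⟩
    · intro i j hij
      apply hw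
      rw [← hxw i, ← hxw j, hij]
    · have h2 : x i = Pool.Agent.TH499.TF.phi u v (w i) := by
        rw [← hxw i, (hσ _ (hx i)).2]
      have h3 : x (i + 1) = Pool.Agent.TH499.TF.phi u v (w (i + 1)) := by
        rw [← hxw (i + 1), (hσ _ (hx (i + 1))).2]
      rw [h2, h3]
      exact joins_phi (hA i).2)
  rwa [card_image_of_injOn hinj] at h1

/-- the condition on the bag of the node `b` -/
def Bg {ι : Type} (src dst : E → V) (T : SimpleGraph ι) (bag : ι → Finset V) (b : ι) : Prop :=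
  ∃ (s k : ℕ) (Z : Fin s → Finset V) (z : Fin s → ℕ),
    (∀ i, z i ≤ 4 ∧ SpK src dst (z i) (Z i)) ∧ (∀ w, T.Adj b w → ∃ i, bag b ∩ bag w ⊆ Z i) ∧
      SpK src dst k (bag b) ∧ k + ∑ i, (z i - 2) ≤ 17

/-- tree decompositions with crowded bags -/
def HasSA (src dst : E → V) : Prop :=
  ∃ (ι : Type) (_ : Fintype ι) (T : SimpleGraph ι) (bag : ι → Finset V), T.IsTree ∧
    (∀ e, ∃ i, src e ∈ bag i ∧ dst e ∈ bag i) ∧ PathCond T bag ∧ ∀ b, Bg src dst T bag b

theorem path_sub {ι : Type} {T : SimpleGraph ι} (hT : T.IsTree) {i j : ι} {p : T.Walk i j}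
    (hp : p.IsPath) (q : T.Walk i j) : p.support ⊆ q.support := by
  classical
  have h1 := hT.isAcyclic.path_unique ⟨p, hp⟩ ⟨q.bypass, q.bypass_isPath⟩
  have h2 : p = q.bypass := congrArg Subtype.val h1
  rw [h2]
  exact q.support_bypass_subset

theorem exists_path {ι : Type} {T : SimpleGraph ι} (hT : T.IsTree) (i j : ι) :
    ∃ p : T.Walk i j, p.IsPath := by
  classical
  obtain ⟨w⟩ := hT.connected.preconnected i j
  exact ⟨w.bypass, w.bypass_isPath⟩

theorem conSA : ConC (V := V) (E := E) HasSA := by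
  classical
  intro src dst u v e h hne hj
  obtain ⟨ι, hι, T, bag, hT, h1, h2, h3⟩ := h
  obtain ⟨c, hcu, hcv⟩ : ∃ c, u ∈ bag c ∧ v ∈ bag c := by
    obtain ⟨b, hb1, hb2⟩ := h1 e
    rcases hj with ⟨h5, h6⟩ | ⟨h5, h6⟩
    · exact ⟨b, h5 ▸ hb1, h6 ▸ hb2⟩
    · exact ⟨b, h6 ▸ hb2, h5 ▸ hb1⟩
  have hm : ∀ i x, x ∈ (bag i).image (Pool.Agent.TH499.TF.phi u v) ↔
      (x ∈ bag i ∧ x ≠ v) ∨ (x = u ∧ v ∈ bag i) := by
    intro i x
    rw [mem_image]
    unfold Pool.Agent.TH499.TF.phi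
    constructor
    · rintro ⟨y, hy, hyv⟩
      by_cases h : y = v
      · rw [if_pos h] at hyv
        exact Or.inr ⟨hyv.symm, h ▸ hy⟩
      · rw [if_neg h] at hyv
        exact Or.inl ⟨hyv ▸ hy, hyv ▸ h⟩
    · rintro (⟨h5, h6⟩ | ⟨h5, h6⟩)
      · exact ⟨x, h5, if_neg h6⟩
      · exact ⟨v, h6, by rw [if_pos rfl, h5]⟩
  -- nodes on a path between two nodes whose bags meet `{u, v}`
  have key : ∀ (i j : ι) (p : T.Walk i j), p.IsPath → ∀ k ∈ p.support,
      (u ∈ bag i ∨ v ∈ bag i) → (u ∈ bag j ∨ v ∈ bag j) → (u ∈ bag k ∨ v ∈ bag k) := by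
    intro i j p hp k hk hi hj
    obtain ⟨p1, hp1⟩ := exists_path hT i c
    obtain ⟨p2, hp2⟩ := exists_path hT c j
    have hk2 := path_sub hT hp (p1.append p2) hk
    rw [SimpleGraph.Walk.mem_support_append_iff] at hk2
    rcases hk2 with hk2 | hk2
    · rcases hi with hi | hi
      · exact Or.inl (h2 i c p1 hp1 k hk2 u hi hcu)
      · exact Or.inr (h2 i c p1 hp1 k hk2 v hi hcv)
    · rcases hj with hj | hj
      · exact Or.inl (h2 c j p2 hp2 k hk2 u hcu hj)
      · exact Or.inr (h2 c j p2 hp2 k hk2 v hcv hj)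
  refine ⟨ι, hι, T, fun i => (bag i).image (Pool.Agent.TH499.TF.phi u v), hT, ?_, ?_, ?_⟩
  · intro d
    obtain ⟨i, hi1, hi2⟩ := h1 d
    exact ⟨i, mem_image_of_mem _ hi1, mem_image_of_mem _ hi2⟩
  · intro i j p hp k hk x hxi hxj
    change x ∈ (bag i).image (Pool.Agent.TH499.TF.phi u v) at hxi
    change x ∈ (bag j).image (Pool.Agent.TH499.TF.phi u v) at hxj
    change x ∈ (bag k).image (Pool.Agent.TH499.TF.phi u v)
    rw [hm] at hxi hxj ⊢
    by_cases hxu : x = u
    · subst hxu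
      have h4 := key i j p hp k hk (hxi.elim (fun h => Or.inl h.1) (fun h => Or.inr h.2))
        (hxj.elim (fun h => Or.inl h.1) (fun h => Or.inr h.2))
      rcases h4 with h4 | h4
      · exact Or.inl ⟨h4, hne⟩
      · exact Or.inr ⟨rfl, h4⟩
    · rcases hxi with hxi | hxi
      · rcases hxj with hxj | hxj
        · exact Or.inl ⟨h2 i j p hp k hk x hxi.1 hxj.1, hxi.2⟩
        · exact absurd hxj.1 hxu
      · exact absurd hxi.1 hxu
  · intro b
    obtain ⟨s, k, Z, z, z1, z2, z3, z4⟩ := h3 b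
    refine ⟨s, k, fun i => (Z i).image (Pool.Agent.TH499.TF.phi u v), z,
      fun i => ⟨(z1 i).1, (z1 i).2.phi _ _⟩, ?_, z3.phi _ _, z4⟩
    intro w hw
    obtain ⟨i, hi⟩ := z2 w hw
    refine ⟨i, ?_⟩
    intro x hx
    rw [mem_inter] at hx
    obtain ⟨hxb, hxw⟩ := hx
    have himg : ∀ y, y ∈ bag b → y ∈ bag w → Pool.Agent.TH499.TF.phi u v y ∈
        (Z i).image (Pool.Agent.TH499.TF.phi u v) := fun y hy1 hy2 =>
      mem_image_of_mem _ (hi (mem_inter.2 ⟨hy1, hy2⟩))
    have hph : ∀ y, y ≠ v → Pool.Agent.TH499.TF.phi u v y = y := by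
      intro y hy
      unfold Pool.Agent.TH499.TF.phi
      rw [if_neg hy]
    have hpv : Pool.Agent.TH499.TF.phi u v v = u := by
      unfold Pool.Agent.TH499.TF.phi
      rw [if_pos rfl]
    rw [hm] at hxb hxw
    -- the two ends in adjacent bags are in a common bag
    have hcross : ∀ a a' : ι, T.Adj a a' → u ∈ bag a → v ∈ bag a' →
        u ∈ bag a' ∨ v ∈ bag a := by
      intro a a' haa hua hva
      obtain ⟨p, hp⟩ := exists_path hT a c
      by_cases hmem : a' ∈ p.support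
      · exact Or.inl (h2 a c p hp a' hmem u hua hcu)
      · right
        have hp' : (SimpleGraph.Walk.cons haa.symm p).IsPath := by
          rw [SimpleGraph.Walk.cons_isPath_iff]
          exact ⟨hp, hmem⟩
        exact h2 a' c _ hp' a (by
          rw [SimpleGraph.Walk.support_cons]
          exact List.mem_cons_of_mem _ p.start_mem_support) v hva hcv
    rcases hxb with ⟨b1, b2⟩ | ⟨b1, b2⟩ <;> rcases hxw with ⟨w1, w2⟩ | ⟨w1, w2⟩
    · have := himg x b1 w1
      rwa [hph x b2] at this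
    · subst w1
      rcases hcross b w hw b1 w2 with h5 | h5
      · have := himg x b1 h5
        rwa [hph x b2] at this
      · have := himg v h5 w2
        rwa [hpv] at this
    · subst b1
      rcases hcross w b hw.symm w1 b2 with h5 | h5
      · have := himg x h5 w1
        rwa [hph x w2] at this
      · have := himg v b2 h5
        rwa [hpv] at this
    · subst b1
      have := himg v b2 w2
      rwa [hpv] at this

/-- **Main step.** -/
theorem nz_of_HasSA {src dst : E → V} (hT : HasSA src dst) (hP : ¬ PM src dst)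
    (hb : ∀ Y, (dlt src dst Y).card ≠ 1) : NZ src dst := by
  by_contra hnz
  have hC : ConC (V := V) (E := E) (fun s d => HasSA s d ∧ ¬ PM s d) := by
    intro s d u v e h hne hj
    exact ⟨conSA s d u v e h.1 hne hj, fun hPM => h.2 (hPM.of_phi hne hj)⟩
  obtain ⟨s, d, hM⟩ := exists_MCo (C := fun s d => HasSA s d ∧ ¬ PM s d) _ src dst rfl ⟨hT, hP⟩ hb hnz
  have hfree : ∀ B : Finset V, ¬ Sh s d B := fun B ⟨k, hk, v, ed, hv, hed, hA⟩ =>
    hM.no_short hC k hk v ed hv hed fun i => (hA i).2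
  obtain ⟨ι, hι, T, bag, t1, t2, t3, t4⟩ := hM.cls.1
  have hAD : N399.TB.HasAD s d := by
    refine N399.TB.hasAD_of_tree t1 bag t2 t3 fun b => ?_
    obtain ⟨r, k, Z, z, z1, z2, z3, z4⟩ := t4 b
    refine ⟨r, Z, fun i => ((z1 i).2 _ (Subset.refl _) (hfree _)).trans (z1 i).1, z2, ?_⟩
    have h5 : (bag b).card ≤ k := z3 _ (Subset.refl _) (hfree _)
    have h6 : ∑ i, ((Z i).card - 2) ≤ ∑ i, (z i - 2) := Finset.sum_le_sum fun i _ =>
      Nat.sub_le_sub_right ((z1 i).2 _ (Subset.refl _) (hfree _)) 2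
    omega
  exact hM.nz (N399.TB.nz_of_cls (fun h1 h2 => N399.TB.ad4 hAD h1 h2) hM.cls.2 hM.cut1)

/-- 2-blocks have a Petersen minor (the proof is that of `N399/TB/Blk.lean`) -/
theorem blk_minor {n : ℕ} {S : Set (Fin n → ZMod 2)} {V E : Type} [Fintype V] [DecidableEq V]
    [Fintype E] [DecidableEq E] {src dst : E → V} {vec : E → Fin n → ZMod 2}
    (hv' : TH676.Blk.RepCo src dst vec) (hr : Set.range vec = S)
    (hcls : ¬ PM src dst → (∀ Y, (dlt src dst Y).card ≠ 1) → NZ src dst)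
    (hz : (0 : Fin n → ZMod 2) ∉ S)
    (hL : ¬ ∃ L : (Fin n → ZMod 2) →ₗ[ZMod 2] (Fin 2 → ZMod 2), ∀ s ∈ S, L s ≠ 0) :
    ∃ (C : Set (Fin n → ZMod 2)) (t : Fin 15 → Fin n → ZMod 2),
        C ⊆ S ∧ Set.range t ⊆ S ∧ Function.Injective t ∧
        ∀ x : Fin 15 → ZMod 2, ∑ k, x k • t k ∈ Submodule.span (ZMod 2) C ↔
          x ∈ TH676.Blk.PC := by
  classical
  have h0 : ∀ e, vec e ≠ 0 := by
    intro e he
    apply hz
    rw [← hr, ← he]
    exact ⟨e, rfl⟩
  have hnz : ¬ TH499.TF.NZ src dst := by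
    intro h
    obtain ⟨L, hL'⟩ := hv'.map h
    apply hL
    refine ⟨L, fun s hs => ?_⟩
    rw [← hr] at hs
    obtain ⟨e, rfl⟩ := hs
    exact hL' e
  have hPM : TH499.TF.PM src dst := by
    by_contra hPM
    exact hnz (hcls hPM (hv'.br h0))
  obtain ⟨D, ed, hx⟩ := hv'.minor hPM
  refine ⟨vec '' (D : Set E), fun k => vec (ed k), ?_, ?_, ?_, hx⟩
  · rintro _ ⟨e, _, rfl⟩
    rw [← hr]
    exact ⟨e, rfl⟩
  · rintro _ ⟨k, rfl⟩
    rw [← hr]
    exact ⟨ed k, rfl⟩
  · intro k l hkl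
    by_contra hne
    apply TH676.Blk.pair_not_mem k l hne
    rw [← hx]
    have : ∑ m, (Pi.single k 1 + Pi.single l 1 : Fin 15 → ZMod 2) m • vec (ed m) = 0 := by
      simp only [Pi.add_apply, add_smul]
      rw [Finset.sum_add_distrib]
      simp only [Pi.single_apply, ite_smul, one_smul, zero_smul, Finset.sum_ite_eq',
        Finset.mem_univ, if_true]
      have h3 : vec (ed k) = vec (ed l) := hkl
      rw [h3]
      funext i
      exact CharTwo.add_self_eq_zero _
    rw [this]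
    exact Submodule.zero_mem _

end Pool.Agent.V5helper2.FF
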